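import Pool.Agent.H547.V1.Stm
import Pool.Agent.H547.Harm

set_option autoImplicit false

namespace Pool.Agent.H200.SUN35

open Finset Pool.Agent.R439.PL Pool.Agent.H547

theorem odd_part {p : ℕ} [hp : Fact p.Prime] (m c : ℕ) (hpc : p = 2 * (m + c) + 1) (hcm : c ≤ m + 1) :
    I p 1 (∑ i ∈ range c, 1 / (2 * (i : ℚ) + 1) + (H (m + c) 1 - H m 1) / 2) := by
  have h1 : H (m + c) 1 - H m 1 = ∑ i ∈ range c, 1 / ((m : ℚ) + c - i) := by
    have h2 : H (m + c) 1 = H m 1 + ∑ i ∈ range c, 1 / ((m : ℚ) + i + 1) := by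
      unfold H
      rw [sum_range_add]
      congr 1
      refine sum_congr rfl fun i _ => ?_
      push_cast
      rw [pow_one]
    rw [h2, add_sub_cancel_left, ← sum_range_reflect]
    refine sum_congr rfl fun i hi => ?_
    rw [mem_range] at hi
    have h3 : ((c - 1 - i : ℕ) : ℚ) = (c : ℚ) - 1 - i := by
      have : c = (c - 1 - i) + 1 + i := by omega
      have h4 : (c : ℚ) = ((c - 1 - i : ℕ) : ℚ) + 1 + i := by exact_mod_cast this
      linarith
    rw [h3]
    congr 1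
    ring
  rw [h1, sum_div, ← sum_add_distrib]
  refine I.sum fun i hi => ?_
  rw [mem_range] at hi
  have hu1 : U p (((2 * i + 1 : ℕ) : ℚ)) := uNat (by omega) (by omega)
  have hu2 : U p (((2 * (m + c - i) : ℕ) : ℚ)) := uNat (by omega) (by omega)
  have hc1 : ((2 * i + 1 : ℕ) : ℚ) = 2 * (i : ℚ) + 1 := by push_cast; ring
  have hc2 : ((2 * (m + c - i) : ℕ) : ℚ) = 2 * ((m : ℚ) + c - i) := by
    have h4 : ((m + c - i : ℕ) : ℚ) = (m : ℚ) + c - i := by
      rw [Nat.cast_sub (by omega)]; push_cast; ring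
    rw [Nat.cast_mul, h4]; norm_num
  rw [hc1] at hu1
  rw [hc2] at hu2
  have hn1 : (2 * (i : ℚ) + 1) ≠ 0 := hu1.1
  have hn2 : ((m : ℚ) + c - i) ≠ 0 := by
    intro h0
    exact hu2.1 (by rw [h0, mul_zero])
  have hpq : (p : ℚ) = 2 * ((m : ℚ) + c) + 1 := by rw [hpc]; push_cast; ring
  refine I_of_mem 1 (y := 1 / ((2 * (i : ℚ) + 1) * (2 * ((m : ℚ) + c - i))))
    (dmem (one_mem _) (hu1.mul hu2)) ?_
  rw [hpq, pow_one]
  field_simp
  ring

theorem split_even (n c : ℕ) (hc : c = n ∨ c = n + 1) :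
    H (n + c) 1 = H n 1 / 2 + ∑ i ∈ range c, 1 / (2 * (i : ℚ) + 1) := by
  have h1 : H (2 * n) 1 = H n 1 / 2 + ∑ i ∈ range n, 1 / (2 * (i : ℚ) + 1) := by
    unfold H
    rw [evenodd, sum_div]
    congr 1
    · refine sum_congr rfl fun i _ => ?_
      have : ((i : ℚ) + 1) ≠ 0 := by positivity
      have h2 : ((2 * i + 1 : ℕ) : ℚ) + 1 = 2 * ((i : ℚ) + 1) := by push_cast; ring
      rw [h2, pow_one, pow_one]
      field_simp
    · refine sum_congr rfl fun i _ => ?_
      rw [pow_one]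
      push_cast
      rfl
  rcases hc with rfl | rfl
  · rw [← two_mul]
    exact h1
  · have h2 : n + (n + 1) = 2 * n + 1 := by ring
    rw [h2, H_succ, h1, sum_range_succ, pow_one]
    push_cast
    ring

theorem h6 : Pool.Agent.H547.V1.S_H6 := by
  intro p hp h3
  have hpr := hp.out
  have hodd : p % 2 = 1 := by
    rcases Nat.Prime.eq_two_or_odd hpr with h | h
    · omega
    · exact h
  have hn3 : p % 3 ≠ 0 := by
    intro h
    have h1 : 3 ∣ p := Nat.dvd_of_mod_eq_zero h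
    have h2 := (Nat.prime_dvd_prime_iff_eq Nat.prime_three hpr).mp h1
    omega
  obtain ⟨n, c, e1, e2, e3, e4, hc⟩ : ∃ n c : ℕ, p / 6 = n ∧ p / 3 = n + c ∧
      p / 2 = n + c + c ∧ p = 2 * (n + c + c) + 1 ∧ (c = n ∨ c = n + 1) := by
    have h6 : p % 6 = 1 ∨ p % 6 = 5 := by omega
    rcases h6 with h6 | h6
    · exact ⟨p / 6, p / 6, rfl, by omega, by omega, by omega, Or.inl rfl⟩
    · exact ⟨p / 6, p / 6 + 1, rfl, by omega, by omega, by omega, Or.inr rfl⟩
  rw [e1, e2, e3]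
  have k1 := split_even n c hc
  have k2 := odd_part (p := p) (n + c) c e4 (by rcases hc with h | h <;> omega)
  refine icg (I.mulL (p := p) (int_mem (p := p) (-2)) k2) ?_
  push_cast
  linarith

end Pool.Agent.H200.SUN35
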